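import Pool.Agent.Lib.MP_c28bf6_an.N7.Stm

set_option autoImplicit false

/-!
Choreographies of seven bodies that are not coplanar: `lam` is constant off the diagonal.
-/

open Finset

namespace Pool.Agent.Lib.MP_c28bf6_an.N7

/-- one row, against one vector -/
private lemma p_const_row (lam : ZMod 7 → ZMod 7 → ℝ) (c al : ZMod 7 → ℝ) (f : ZMod 7 → ℝ)
    (j : ZMod 7) (hdiag : lam j j = 0) (hmu : mu lam c j = al j * c j)
    (h : ∑ k, c k * lam j k * (f k - f j) = 0) :
    ∑ k, (lam j k - if k = j then al j else 0) * c k * f k = 0 := by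
  have e1 : ∑ k, (lam j k - if k = j then al j else 0) * c k * f k =
      (∑ k, c k * lam j k * (f k - f j)) + f j * mu lam c j - al j * c j * f j := by
    have e2 : ∀ k, (lam j k - if k = j then al j else 0) * c k * f k =
        c k * lam j k * (f k - f j) + f j * (lam j k * c k) -
          (if k = j then al j * c j * f j else 0) := by
      intro k
      by_cases hk : k = j
      · subst hk
        simp only [if_true]
        ring
      · simp only [hk, if_false]
        ring
    rw [sum_congr rfl fun k _ => e2 k, sum_sub_distrib, sum_add_distrib, ← mul_sum]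
    simp [mu]
  rw [e1, h, hmu]
  ring

theorem p_const (h_trig : S_trig) (h_orth : S_orth) (h_zero : S_zero) (h_rigid : S_rigid) :
    S_const := by
  intro z lam V hz hsym hdiag hc hs hV h1 hsep hcl hsl
  obtain ⟨t1, t2⟩ := h_trig z hz
  have hb : ∀ j, ss z j * mu lam (cc z) j - cc z j * mu lam (ss z) j = 0 :=
    h_zero (cc z) (ss z) (fun j => ss z j * mu lam (cc z) j - cc z j * mu lam (ss z) j) V t2 hc hs
      hV h1 hsep (h_orth (cc z) (ss z) lam V hsym hcl hsl)
  obtain ⟨al, hal⟩ : ∃ al : ZMod 7 → ℝ,
      ∀ j, al j = cc z j * mu lam (cc z) j + ss z j * mu lam (ss z) j := ⟨_, fun _ => rfl⟩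
  have e1 : ∀ j, mu lam (cc z) j = al j * cc z j := fun j => by
    rw [hal]
    linear_combination (-(mu lam (cc z) j)) * t1 j + ss z j * hb j
  have e2 : ∀ j, mu lam (ss z) j = al j * ss z j := fun j => by
    rw [hal]
    linear_combination (-(mu lam (ss z) j)) * t1 j - cc z j * hb j
  have row : ∀ j k k', k ≠ j → k' ≠ j → lam j k = lam j k' := by
    intro j k k' hk hk'
    have h2 := h_rigid z (fun k => lam j k - if k = j then al j else 0) V hz hc hs hV h1
      (fun f hf => p_const_row lam (cc z) al f j (hdiag j) (e1 j) (hcl f hf j))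
      (fun f hf => p_const_row lam (ss z) al f j (hdiag j) (e2 j) (hsl f hf j)) k k'
    simpa only [hk, hk', if_false, sub_zero] using h2
  refine ⟨lam 0 1, fun j k hjk => ?_⟩
  by_cases hj : j = 0
  · subst hj
    exact row 0 k 1 (Ne.symm hjk) (by decide)
  · rw [row j k 0 (Ne.symm hjk) (Ne.symm hj), hsym j 0]
    exact row 0 j 1 hj (by decide)

end Pool.Agent.Lib.MP_c28bf6_an.N7
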