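import Pool.Agent.Lib.MP_c28bf6_an.N7.Stm

/-!
# Dimension of the space of affine functions
-/

open Finset

namespace Pool.Agent.Lib.MP_c28bf6_an.N7

theorem p_dim.{u} : S_dim.{u} := by
  intro E _ _ x h3
  have hfin : Module.Finite ℝ (vectorSpan ℝ (Set.range x)) := Module.finite_of_finrank_pos (by omega)
  obtain ⟨S, hS⟩ : ∃ S : Submodule ℝ E, S = vectorSpan ℝ (Set.range x) := ⟨_, rfl⟩
  rw [← hS] at h3 hfin
  obtain ⟨T, hT⟩ : ∃ T : S →ₗ[ℝ] (ZMod 7 → ℝ), ∀ (e : S) (j : ZMod 7), T e j = inner ℝ (e : E) (x j - x 0) :=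
    ⟨LinearMap.pi (fun j => ((innerₗ E).flip (x j - x 0)).comp S.subtype), fun e j => rfl⟩
  have hTinj : ∀ e : S, T e = 0 → e = 0 := by
    intro e he
    have h1 : ∀ v ∈ S, inner ℝ (e : E) v = 0 := by
      intro v hv
      rw [hS, vectorSpan_range_eq_span_range_vsub_right ℝ x 0] at hv
      induction hv using Submodule.span_induction with
      | mem v hv =>
        obtain ⟨j, rfl⟩ := hv
        have := congrFun he j
        rw [hT] at this
        exact this
      | zero => exact inner_zero_right _
      | add a b _ _ ha hb => rw [inner_add_right, ha, hb, add_zero]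
      | smul r a _ ha => rw [inner_smul_right, ha, mul_zero]
    have h2 := h1 e e.2
    rw [inner_self_eq_zero] at h2
    exact Subtype.ext h2
  obtain ⟨T', hT'⟩ : ∃ T' : (S × ℝ) →ₗ[ℝ] (ZMod 7 → ℝ), ∀ (e : S) (b : ℝ) (j : ZMod 7), T' (e, b) j = T e j + b :=
    ⟨T.coprod (LinearMap.toSpanSingleton ℝ _ (fun _ => 1)), fun e b j => by simp⟩
  have hmem : ∀ p : S × ℝ, T' p ∈ aff x := by
    rintro ⟨e, b⟩
    refine ⟨b - inner ℝ (e : E) (x 0), e, fun j => ?_⟩
    rw [hT', hT, inner_sub_right]
    ring
  have hinj : Function.Injective (T'.codRestrict (aff x) hmem) := by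
    rw [injective_iff_map_eq_zero]
    rintro ⟨e, b⟩ h
    have h1 : T' (e, b) = 0 := by
      have := congrArg Subtype.val h
      exact this
    have h2 : ∀ j, T e j + b = 0 := by
      intro j
      rw [← hT', h1]
      rfl
    have hb : b = 0 := by
      have := h2 0
      rw [hT, sub_self, inner_zero_right, zero_add] at this
      exact this
    have he : T e = 0 := by
      funext j
      have := h2 j
      rw [hb, add_zero] at this
      exact this
    rw [hTinj e he, hb]
    rfl
  have h4 := LinearMap.finrank_le_finrank_of_injective hinj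
  rw [Module.finrank_prod, Module.finrank_self] at h4
  omega

end Pool.Agent.Lib.MP_c28bf6_an.N7
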