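import Pool.Agent.Lib.MP_c28bf6_an.N7.Stm

/-!
# Equidistant points
-/

open Finset

namespace Pool.Agent.Lib.MP_c28bf6_an.N7

private theorem p_equid_cube {a b : ℝ} (ha : 0 ≤ a) (hb : 0 ≤ b)
    (h : (a ^ 3)⁻¹ = (b ^ 3)⁻¹) : a = b := by
  have h1 : a ^ 3 = b ^ 3 := inv_injective h
  exact (pow_left_inj₀ ha hb (by norm_num)).1 h1

theorem p_equid.{u} : S_equid.{u} := by
  intro E _ _ x c e hx hc hcx hne he
  -- all distances are equal to `r`
  have h01 : (0 : ZMod 7) ≠ 1 := by decide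
  obtain ⟨r, hr⟩ : ∃ r : ℝ, r = ‖x 1 - x 0‖ := ⟨_, rfl⟩
  have hrpos : 0 < r := by
    rw [hr, norm_pos_iff, sub_ne_zero]
    exact fun h => h01 (hx h).symm
  have hall : ∀ j k, j ≠ k → ‖x j - x k‖ = r := by
    intro j k hjk
    rw [hr]
    apply p_equid_cube (norm_nonneg _) (norm_nonneg _)
    rw [he 0 1 h01, he k j hjk.symm]
  have hkey := inner_sum_smul_sum_smul_of_sum_eq_zero (s₁ := (univ : Finset (ZMod 7)))
    (s₂ := (univ : Finset (ZMod 7))) (w₁ := c) (w₂ := c) x hc x hc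
  rw [hcx, inner_zero_left] at hkey
  have h2 : ∀ i j, c i * c j * (‖x i - x j‖ * ‖x i - x j‖)
      = r ^ 2 * (c i * c j) - (if i = j then r ^ 2 * (c i) ^ 2 else 0) := by
    intro i j
    by_cases hij : i = j
    · subst hij
      simp
      ring
    · rw [hall i j hij]
      simp [hij]
      ring
  have h3 : ∑ i, ∑ j, c i * c j * (‖x i - x j‖ * ‖x i - x j‖)
      = - (r ^ 2 * ∑ i, (c i) ^ 2) := by
    simp_rw [h2, Finset.sum_sub_distrib, Finset.sum_ite_eq, ← Finset.mul_sum, hc]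
    simp
    rw [← Finset.mul_sum]
  rw [h3] at hkey
  have h4 : r ^ 2 * ∑ i, (c i) ^ 2 = 0 := by linarith
  have h5 : 0 < ∑ i, (c i) ^ 2 := by
    obtain ⟨j, hj⟩ := hne
    exact Finset.sum_pos' (fun i _ => sq_nonneg _) ⟨j, Finset.mem_univ _, by positivity⟩
  have h6 : 0 < r ^ 2 * ∑ i, (c i) ^ 2 := by positivity
  linarith

end Pool.Agent.Lib.MP_c28bf6_an.N7
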