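import Pool.Agent.Lib.MP_c28bf6_an.N7.Stm

open Finset

namespace Pool.Agent.Lib.MP_c28bf6_an.N7

/-- Functions supported on a set of size `n` have dimension at most `n`. -/
private lemma p_isot_card (p : ZMod 7 → Prop) [DecidablePred p] :
    Module.finrank ℝ (vanish (fun j => ¬ p j)) ≤ (univ.filter p).card := by
  let R : (vanish (fun j => ¬ p j)) →ₗ[ℝ] ({j // p j} → ℝ) :=
    { toFun := fun f j => (f : ZMod 7 → ℝ) j.1
      map_add' := fun f g => rfl
      map_smul' := fun r f => rfl }
  have hR : Function.Injective R := by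
    intro f g hfg
    ext j
    by_cases hj : p j
    · exact congrFun hfg ⟨j, hj⟩
    · rw [f.2 j hj, g.2 j hj]
  have h := LinearMap.finrank_le_finrank_of_injective hR
  rwa [Module.finrank_fintype_fun_eq_card, Fintype.card_subtype] at h

/-- multiplication by a function -/
private noncomputable def p_isot_mul (b : ZMod 7 → ℝ) : (ZMod 7 → ℝ) →ₗ[ℝ] (ZMod 7 → ℝ) where
  toFun f := fun j => b j * f j
  map_add' f g := by
    ext j
    simp [mul_add]
  map_smul' r f := by
    ext j
    simp [mul_left_comm]

private lemma p_isot_dim (T : (ZMod 7 → ℝ) →ₗ[ℝ] (ZMod 7 → ℝ)) (V : Submodule ℝ (ZMod 7 → ℝ)) :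
    Module.finrank ℝ (V.map T) + Module.finrank ℝ (V ⊓ LinearMap.ker T : Submodule ℝ (ZMod 7 → ℝ)) =
      Module.finrank ℝ V := by
  have h := LinearMap.finrank_range_add_finrank_ker (T.domRestrict V)
  rw [LinearMap.range_domRestrict, LinearMap.ker_domRestrict] at h
  rw [← h, ← Submodule.map_comap_subtype]
  congr 1
  exact (LinearEquiv.finrank_eq (Submodule.equivMapOfInjective V.subtype V.injective_subtype
    (Submodule.comap V.subtype (LinearMap.ker T)))).symm

theorem p_isot : S_isot := by
  intro b V h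
  classical
  have hk1 : LinearMap.ker (p_isot_mul b) = vanish (fun j => b j ≠ 0) := by
    ext f
    rw [LinearMap.mem_ker]
    constructor
    · intro hf j hj
      have h1 : b j * f j = 0 := congrFun hf j
      exact (mul_eq_zero.mp h1).resolve_left hj
    · intro hf
      ext j
      show b j * f j = 0
      by_cases hj : b j = 0
      · rw [hj, zero_mul]
      · rw [hf j hj, mul_zero]
  have hk2 : LinearMap.ker (p_isot_mul (fun j => if b j = 0 then 0 else 1)) =
      vanish (fun j => b j ≠ 0) := by
    ext f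
    rw [LinearMap.mem_ker]
    constructor
    · intro hf j hj
      have h1 : (if b j = 0 then (0 : ℝ) else 1) * f j = 0 := congrFun hf j
      rwa [if_neg hj, one_mul] at h1
    · intro hf
      ext j
      show (if b j = 0 then (0 : ℝ) else 1) * f j = 0
      by_cases hj : b j = 0
      · rw [if_pos hj, zero_mul]
      · rw [hf j hj, mul_zero]
  have d1 := p_isot_dim (p_isot_mul b) V
  have d2 := p_isot_dim (p_isot_mul (fun j => if b j = 0 then 0 else 1)) V
  rw [hk1] at d1
  rw [hk2] at d2
  have hinf : V.map (p_isot_mul b) ⊓ V.map (p_isot_mul (fun j => if b j = 0 then 0 else 1)) = ⊥ := by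
    rw [eq_bot_iff]
    rintro x ⟨⟨f, hf, rfl⟩, ⟨g, hg, hx⟩⟩
    have h1 : ∑ j, (p_isot_mul b f j) * (p_isot_mul b f j) = 0 := by
      rw [← h f hf g hg]
      refine Finset.sum_congr rfl fun j _ => ?_
      have h2 : (if b j = 0 then (0 : ℝ) else 1) * g j = p_isot_mul b f j := congrFun hx j
      nth_rewrite 2 [← h2]
      show b j * f j * ((if b j = 0 then (0 : ℝ) else 1) * g j) = b j * f j * g j
      by_cases hj : b j = 0
      · rw [hj]
        ring
      · rw [if_neg hj, one_mul]
    have h3 := (Finset.sum_eq_zero_iff_of_nonneg (fun j _ => mul_self_nonneg _)).mp h1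
    rw [Submodule.mem_bot]
    ext j
    exact mul_self_eq_zero.mp (h3 j (Finset.mem_univ j))
  have hsup : V.map (p_isot_mul b) ⊔ V.map (p_isot_mul (fun j => if b j = 0 then 0 else 1)) ≤
      vanish (fun j => ¬ b j ≠ 0) := by
    refine sup_le ?_ ?_
    · rintro x ⟨f, _, rfl⟩ j hj
      have hj : b j = 0 := not_not.mp hj
      show b j * f j = 0
      rw [hj, zero_mul]
    · rintro x ⟨f, _, rfl⟩ j hj
      have hj : b j = 0 := not_not.mp hj
      show (if b j = 0 then (0 : ℝ) else 1) * f j = 0
      rw [if_pos hj, zero_mul]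
  have d3 := Submodule.finrank_sup_add_finrank_inf_eq (V.map (p_isot_mul b))
    (V.map (p_isot_mul (fun j => if b j = 0 then 0 else 1)))
  rw [hinf, finrank_bot] at d3
  have d4 := Submodule.finrank_mono hsup
  have d5 := p_isot_card (fun j => b j ≠ 0)
  have d6 : (univ.filter (fun j => b j ≠ 0)).card = (univ.filter (fun j => b j ≠ 0)).card := rfl
  have d7 : Module.finrank ℝ (vanish (fun j => ¬ b j ≠ 0)) ≤ (univ.filter (fun j => b j ≠ 0)).card := by
    convert d5
  omega

end Pool.Agent.Lib.MP_c28bf6_an.N7
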