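import Pool.Agent.Lib.MP_c28bf6_an.N7.Stm

/-!
# Choreographies of seven bodies that are not coplanar: main theorem
-/

open Finset

namespace Pool.Agent.Lib.MP_c28bf6_an.N7

theorem p_main.{u} (h_spec : S_spec) (h_static : S_static.{u}) : S_main.{u} := by
  intro E _ _ m x T h t hdim i j
  have hcore : Core 7 (fun j : ZMod 7 => m j) (bodyZ 6 x T) (T / ((7 : ℕ) : ℝ)) := h.core
  by_contra hne
  have hW : ∃ w ∈ Core.W 7 (fun j : ZMod 7 => m j), w ≠ 0 := by
    refine ⟨_, Core.diff_mem (n := 7) (μ := fun j : ZMod 7 => m j) ((j : ZMod 7) - (i : ZMod 7)), ?_⟩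
    intro h0
    have h1 := congrFun h0 (i : ZMod 7)
    change m ((i : ZMod 7) + ((j : ZMod 7) - (i : ZMod 7)) : ZMod 7) - m i = 0 at h1
    have h2 : ((i : ZMod 7) + ((j : ZMod 7) - (i : ZMod 7)) : ZMod 7) = (j : ZMod 7) :=
      add_sub_cancel _ _
    rw [h2] at h1
    exact hne (sub_eq_zero.1 h1).symm
  obtain ⟨z, hz, hc, hs⟩ := h_spec (Core.W 7 (fun j : ZMod 7 => m j))
    (fun w hw => Core.sum_W hw) (fun w hw r => Core.W_shift hw r) hW
  refine h_static E (fun j => bodyZ 6 x T j t) z hz ?_ (Core.sum_W hc) (Core.sum_W hs)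
    (hcore.dipole_W hc t) (hcore.dipole_W hs t) (fun k => hcore.equil_W hc t k)
    (fun k => hcore.equil_W hs t k) ?_
  · intro a b hab
    by_contra hne'
    exact hcore.nocol t a b hne' hab
  · have hr : Set.range (fun i : Fin 7 => body 7 x T i t) =
        Set.range (fun j : ZMod 7 => bodyZ 6 x T j t) := rfl
    rw [← hr]
    exact hdim

end Pool.Agent.Lib.MP_c28bf6_an.N7
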