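import Pool.Agent.Lib.MP_c28bf6_an.N7.Stm

open Finset

namespace Pool.Agent.Lib.MP_c28bf6_an.N7

private theorem p_orth_aux (c : ZMod 7 → ℝ) (lam : ZMod 7 → ZMod 7 → ℝ) (f : ZMod 7 → ℝ)
    (j : ZMod 7) (h : ∑ k, c k * lam j k * (f k - f j) = 0) :
    f j * mu lam c j = ∑ k, lam j k * c k * f k := by
  unfold mu
  rw [Finset.mul_sum, eq_comm, ← sub_eq_zero, ← Finset.sum_sub_distrib, ← h]
  refine Finset.sum_congr rfl fun k _ => ?_
  ring

theorem p_orth : S_orth := by
  intro c s lam V hsymm hc hs f hf g hg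
  have h1 : ∀ j, (s j * mu lam c j - c j * mu lam s j) * f j * g j =
      (∑ k, s j * g j * (lam j k * c k * f k)) - ∑ k, c j * f j * (lam j k * s k * g k) := by
    intro j
    rw [← Finset.mul_sum, ← Finset.mul_sum, ← p_orth_aux c lam f j (hc f hf j),
      ← p_orth_aux s lam g j (hs g hg j)]
    ring
  rw [Finset.sum_congr rfl fun j _ => h1 j, Finset.sum_sub_distrib, sub_eq_zero, Finset.sum_comm]
  refine Finset.sum_congr rfl fun k _ => Finset.sum_congr rfl fun j _ => ?_
  rw [hsymm j k]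
  ring

end Pool.Agent.Lib.MP_c28bf6_an.N7
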