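import Pool.Agent.Lib.MP_c28bf6_an.N7.Stm

open Finset

namespace Pool.Agent.Lib.MP_c28bf6_an.N7

private noncomputable def chi (z : ℂ) (j : ZMod 7) : ℂ := z ^ j.val

private lemma chi_add {z : ℂ} (hz : IsPrimitiveRoot z 7) (j k : ZMod 7) :
    chi z (j + k) = chi z j * chi z k := by
  unfold chi
  rw [← pow_add, ZMod.val_add]
  exact (pow_eq_pow_mod _ hz.pow_eq_one).symm

private lemma chi_zero (z : ℂ) : chi z 0 = 1 := by
  unfold chi
  simp

private lemma chi_conj {z : ℂ} (hz : IsPrimitiveRoot z 7) (j : ZMod 7) :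
    chi z (-j) = (starRingEnd ℂ) (chi z j) := by
  have h1 : chi z (-j) * chi z j = 1 := by
    rw [← chi_add hz, neg_add_cancel, chi_zero]
  have h2 : ‖z‖ = 1 := hz.norm'_eq_one (by norm_num)
  have h3 : ‖chi z j‖ = 1 := by
    unfold chi
    rw [norm_pow, h2, one_pow]
  have h4 : (starRingEnd ℂ) (chi z j) * chi z j = 1 := by
    rw [mul_comm, Complex.mul_conj, Complex.normSq_eq_norm_sq, h3]
    norm_num
  have h5 : chi z j ≠ 0 := by
    intro h
    rw [h, norm_zero] at h3
    exact zero_ne_one h3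
  exact mul_right_cancel₀ h5 (h1.trans h4.symm)

private lemma chi_one_ne {z : ℂ} (hz : IsPrimitiveRoot z 7) (m : ZMod 7) (hm : m ≠ 0) :
    chi z m ≠ 1 := by
  intro h
  unfold chi at h
  have h1 : (7 : ℕ) ∣ m.val := (hz.pow_eq_one_iff_dvd _).1 h
  have h2 : m.val < 7 := ZMod.val_lt m
  have h3 : m.val = 0 := Nat.eq_zero_of_dvd_of_lt h1 h2
  exact hm ((ZMod.val_eq_zero m).1 h3)

private lemma chi_sum {z : ℂ} (hz : IsPrimitiveRoot z 7) (m : ZMod 7) (hm : m ≠ 0) :
    ∑ j : ZMod 7, chi z (m * j) = 0 := by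
  have h1 : ∑ j : ZMod 7, chi z (m * j) = ∑ j : ZMod 7, chi z (m * (j + 1)) :=
    (Equiv.sum_comp (Equiv.addRight (1 : ZMod 7)) (fun j => chi z (m * j))).symm
  have h2 : ∑ j : ZMod 7, chi z (m * (j + 1)) = (∑ j : ZMod 7, chi z (m * j)) * chi z m := by
    rw [Finset.sum_mul]
    refine Finset.sum_congr rfl fun j _ => ?_
    rw [mul_add, mul_one, chi_add hz]
  have h3 : (∑ j : ZMod 7, chi z (m * j)) * (chi z m - 1) = 0 := by
    rw [mul_sub, mul_one, ← h2, ← h1, sub_self]
  rcases mul_eq_zero.1 h3 with h | h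
  · exact h
  · exact absurd (sub_eq_zero.1 h) (chi_one_ne hz m hm)

/-- linear dependence -/
private lemma dep (c s u : ZMod 7 → ℝ) (V : Submodule ℝ (ZMod 7 → ℝ))
    (h1 : ∀ f ∈ V, ∑ j, c j * f j = 0) (h2 : ∀ f ∈ V, ∑ j, s j * f j = 0)
    (hV : 4 ≤ Module.finrank ℝ V)
    (h3 : ∀ f ∈ V, ∑ j, u j * c j * f j = 0) (h4 : ∀ f ∈ V, ∑ j, u j * s j * f j = 0) :
    ∃ a1 a2 a3 a4 : ℝ, (a1 ≠ 0 ∨ a2 ≠ 0 ∨ a3 ≠ 0 ∨ a4 ≠ 0) ∧
      ∀ j, a1 * c j + a2 * s j + u j * (a3 * c j + a4 * s j) = 0 := by
  classical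
  let W : Fin 4 → (ZMod 7 → ℝ) := ![c, s, fun j => u j * c j, fun j => u j * s j]
  let Φ : (ZMod 7 → ℝ) →ₗ[ℝ] (Fin 4 → ℝ) :=
    LinearMap.pi fun i => ∑ j, W i j • (LinearMap.proj j : (ZMod 7 → ℝ) →ₗ[ℝ] ℝ)
  have hΦ : ∀ f i, Φ f i = ∑ j, W i j * f j := by
    intro f i
    simp [Φ, LinearMap.pi_apply, LinearMap.sum_apply]
  have hle : V ≤ LinearMap.ker Φ := by
    intro f hf
    rw [LinearMap.mem_ker]
    funext i
    rw [hΦ]
    fin_cases i
    · exact h1 f hf
    · exact h2 f hf
    · exact h3 f hf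
    · exact h4 f hf
  have hk : 4 ≤ Module.finrank ℝ (LinearMap.ker Φ) := hV.trans (Submodule.finrank_mono hle)
  have hr : Module.finrank ℝ (LinearMap.range Φ) + Module.finrank ℝ (LinearMap.ker Φ) = 7 := by
    rw [LinearMap.finrank_range_add_finrank_ker, Module.finrank_fintype_fun_eq_card, ZMod.card]
  have hlt : LinearMap.range Φ < ⊤ := by
    rw [lt_top_iff_ne_top]
    intro h
    rw [h, finrank_top, Module.finrank_fintype_fun_eq_card, Fintype.card_fin] at hr
    omega
  obtain ⟨F, hF0, hF⟩ := Submodule.exists_le_ker_of_lt_top _ hlt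
  have hFx : ∀ x : Fin 4 → ℝ, F x = x 0 * F (Pi.single 0 1) + x 1 * F (Pi.single 1 1) +
      x 2 * F (Pi.single 2 1) + x 3 * F (Pi.single 3 1) := by
    intro x
    have := LinearMap.pi_apply_eq_sum_univ F x
    rw [this, Fin.sum_univ_four]
    have e : ∀ i : Fin 4, (fun j => if i = j then (1 : ℝ) else 0) = Pi.single i 1 := by
      intro i
      funext j
      rw [Pi.single_apply]
      simp [eq_comm]
    simp only [e, smul_eq_mul]
  refine ⟨F (Pi.single 0 1), F (Pi.single 1 1), F (Pi.single 2 1), F (Pi.single 3 1), ?_, ?_⟩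
  · by_contra hcon
    push Not at hcon
    obtain ⟨k0, k1, k2, k3⟩ := hcon
    apply hF0
    ext1 i
    fin_cases i
    · ext1; simpa using k0
    · ext1; simpa using k1
    · ext1; simpa using k2
    · ext1; simpa using k3
  · intro j
    have hj : F (Φ (Pi.single j 1)) = 0 := by
      have : Φ (Pi.single j 1) ∈ LinearMap.ker F := hF ⟨_, rfl⟩
      exact this
    rw [hFx] at hj
    have hv : ∀ i, Φ (Pi.single j 1) i = W i j := by
      intro i
      rw [hΦ]
      simp [Pi.single_apply]
    rw [hv, hv, hv, hv] at hj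
    have w0 : W 0 j = c j := rfl
    have w1 : W 1 j = s j := rfl
    have w2 : W 2 j = u j * c j := rfl
    have w3 : W 3 j = u j * s j := rfl
    rw [w0, w1, w2, w3] at hj
    linear_combination hj

theorem p_rigid : S_rigid := by
  intro z u V hz h1 h2 hV hone h3 h4
  obtain ⟨a1, a2, a3, a4, hne, hrel⟩ := dep (cc z) (ss z) u V h1 h2 hV h3 h4
  have hI : Complex.I * Complex.I = -1 := Complex.I_mul_I
  have hp : ∀ j, chi z j = (cc z j : ℂ) + (ss z j : ℂ) * Complex.I := fun j =>
    (Complex.re_add_im (chi z j)).symm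
  have hm : ∀ j, chi z (-j) = (cc z j : ℂ) - (ss z j : ℂ) * Complex.I := by
    intro j
    rw [chi_conj hz, hp]
    simp
    ring
  set A : ℂ := (a1 : ℂ) - a2 * Complex.I with hA
  set A' : ℂ := (a1 : ℂ) + a2 * Complex.I with hA'
  set B : ℂ := (a3 : ℂ) - a4 * Complex.I with hB
  set B' : ℂ := (a3 : ℂ) + a4 * Complex.I with hB'
  have hrelC : ∀ j, A * chi z j + A' * chi z (-j) + (u j : ℂ) * (B * chi z j + B' * chi z (-j)) =
      0 := by
    intro j
    have h := congrArg (fun r : ℝ => (r : ℂ)) (hrel j)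
    simp only [Complex.ofReal_add, Complex.ofReal_mul, Complex.ofReal_zero] at h
    rw [hp, hm]
    linear_combination 2 * h + (-2) * (a2 * ss z j + u j * (a4 * ss z j) : ℂ) * hI
  set U : ZMod 7 → ℂ := fun m => ∑ j : ZMod 7, (u j : ℂ) * chi z (m * j) with hU
  set S : ZMod 7 → ℂ := fun m => ∑ j : ZMod 7, chi z (m * j) with hS
  have hS0 : ∀ m, m ≠ 0 → S m = 0 := fun m hm0 => chi_sum hz m hm0
  have hS7 : S 0 = 7 := by
    simp [hS, chi_zero]
  have key : ∀ m, A * S (m + 1) + A' * S (m - 1) + (B * U (m + 1) + B' * U (m - 1)) = 0 := by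
    intro m
    have e : A * S (m + 1) + A' * S (m - 1) + (B * U (m + 1) + B' * U (m - 1)) =
        ∑ j : ZMod 7, chi z (m * j) * (A * chi z j + A' * chi z (-j) +
          (u j : ℂ) * (B * chi z j + B' * chi z (-j))) := by
      simp only [hU, hS]
      simp only [Finset.mul_sum, ← Finset.sum_add_distrib]
      refine Finset.sum_congr rfl fun j _ => ?_
      have e1 : chi z ((m + 1) * j) = chi z (m * j) * chi z j := by
        rw [← chi_add hz, add_mul, one_mul]
      have e2 : chi z ((m - 1) * j) = chi z (m * j) * chi z (-j) := by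
        rw [← chi_add hz, sub_mul, one_mul, sub_eq_add_neg]
      rw [e1, e2]
      ring
    rw [e]
    exact Finset.sum_eq_zero fun j _ => by rw [hrelC, mul_zero]
  -- `U 1 = U (-1) = 0`
  have hc1 : ∑ j : ZMod 7, (u j : ℂ) * (cc z j : ℂ) = 0 := by
    have := h3 _ hone
    simp only [mul_one] at this
    exact_mod_cast this
  have hs1 : ∑ j : ZMod 7, (u j : ℂ) * (ss z j : ℂ) = 0 := by
    have := h4 _ hone
    simp only [mul_one] at this
    exact_mod_cast this
  have hU1 : U 1 = 0 := by
    have e : U 1 = ∑ j : ZMod 7, (u j : ℂ) * (cc z j : ℂ) +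
        (∑ j : ZMod 7, (u j : ℂ) * (ss z j : ℂ)) * Complex.I := by
      simp only [hU, Finset.sum_mul, ← Finset.sum_add_distrib]
      refine Finset.sum_congr rfl fun j _ => ?_
      rw [one_mul, hp]
      ring
    rw [e, hc1, hs1]
    simp
  have hU6 : U (-1) = 0 := by
    have e : U (-1) = ∑ j : ZMod 7, (u j : ℂ) * (cc z j : ℂ) -
        (∑ j : ZMod 7, (u j : ℂ) * (ss z j : ℂ)) * Complex.I := by
      simp only [hU, Finset.sum_mul, ← Finset.sum_sub_distrib]
      refine Finset.sum_congr rfl fun j _ => ?_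
      rw [neg_one_mul, hm]
      ring
    rw [e, hc1, hs1]
    simp
  have h7 : (7 : ℂ) ≠ 0 := by norm_num
  have hB34 : ¬ (a3 = 0 ∧ a4 = 0) := by
    rintro ⟨e3, e4⟩
    have hB0 : B = 0 := by rw [hB, e3, e4]; simp
    have hB0' : B' = 0 := by rw [hB', e3, e4]; simp
    have k := key 1
    rw [hB0, hB0', hS0 (1 + 1) (by decide), sub_self, hS7] at k
    have kA : A' = 0 := by
      have : A' * 7 = 0 := by linear_combination k
      rcases mul_eq_zero.1 this with h | h
      · exact h
      · exact absurd h h7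
    have e1 : a1 = 0 := by
      have := congrArg Complex.re kA
      rw [hA'] at this
      simpa using this
    have e2 : a2 = 0 := by
      have := congrArg Complex.im kA
      rw [hA'] at this
      simpa using this
    rcases hne with h | h | h | h
    · exact h e1
    · exact h e2
    · exact h e3
    · exact h e4
  have hBne : B ≠ 0 := by
    intro h
    apply hB34
    rw [hB] at h
    constructor
    · have := congrArg Complex.re h
      simpa using this
    · have := congrArg Complex.im h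
      simpa using this
  have hBne' : B' ≠ 0 := by
    intro h
    apply hB34
    rw [hB'] at h
    constructor
    · have := congrArg Complex.re h
      simpa using this
    · have := congrArg Complex.im h
      simpa using this
  have hU3 : U 3 = 0 := by
    have k := key 2
    rw [hS0 (2 + 1) (by decide), hS0 (2 - 1) (by decide),
      show (2 : ZMod 7) - 1 = 1 by decide, hU1, show (2 : ZMod 7) + 1 = 3 by decide] at k
    have : B * U 3 = 0 := by linear_combination k
    exact (mul_eq_zero.1 this).resolve_left hBne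
  have hU4 : U 4 = 0 := by
    have k := key 5
    rw [hS0 (5 + 1) (by decide), hS0 (5 - 1) (by decide),
      show (5 : ZMod 7) + 1 = -1 by decide, hU6, show (5 : ZMod 7) - 1 = 4 by decide] at k
    have : B' * U 4 = 0 := by linear_combination k
    exact (mul_eq_zero.1 this).resolve_left hBne'
  have hU2 : U 2 = 0 := by
    have k := key 3
    rw [hS0 (3 + 1) (by decide), hS0 (3 - 1) (by decide),
      show (3 : ZMod 7) + 1 = 4 by decide, hU4, show (3 : ZMod 7) - 1 = 2 by decide] at k
    have : B' * U 2 = 0 := by linear_combination k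
    exact (mul_eq_zero.1 this).resolve_left hBne'
  have hU5 : U 5 = 0 := by
    have k := key 4
    rw [hS0 (4 + 1) (by decide), hS0 (4 - 1) (by decide),
      show (4 : ZMod 7) + 1 = 5 by decide, show (4 : ZMod 7) - 1 = 3 by decide, hU3] at k
    have : B * U 5 = 0 := by linear_combination k
    exact (mul_eq_zero.1 this).resolve_left hBne
  have hUall : ∀ m, m ≠ 0 → U m = 0 := by
    intro m hm0
    have hcases : ∀ m : ZMod 7, m ≠ 0 → m = 1 ∨ m = 2 ∨ m = 3 ∨ m = 4 ∨ m = 5 ∨ m = -1 := by
      decide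
    rcases hcases m hm0 with h | h | h | h | h | h <;> rw [h] <;> assumption
  have inv : ∀ i, (7 : ℂ) * u i = U 0 := by
    intro i
    have e : ∑ m : ZMod 7, U m * chi z (m * (-i)) = 7 * u i := by
      simp only [hU, Finset.sum_mul]
      rw [Finset.sum_comm]
      have : ∀ j : ZMod 7, ∑ m : ZMod 7, (u j : ℂ) * chi z (m * j) * chi z (m * (-i)) =
          (u j : ℂ) * S (j - i) := by
        intro j
        simp only [hS, Finset.mul_sum]
        refine Finset.sum_congr rfl fun m _ => ?_
        rw [mul_assoc, ← chi_add hz]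
        congr 2
        ring
      rw [Finset.sum_congr rfl fun j _ => this j]
      rw [Finset.sum_eq_single i]
      · rw [sub_self, hS7, mul_comm]
      · intro j _ hji
        rw [hS0 _ (sub_ne_zero.2 hji), mul_zero]
      · intro h
        exact absurd (Finset.mem_univ i) h
    rw [← e, Finset.sum_eq_single 0]
    · rw [zero_mul, chi_zero, mul_one]
    · intro m _ hm0
      rw [hUall m hm0, zero_mul]
    · intro h
      exact absurd (Finset.mem_univ _) h
  intro i j
  have h := (inv i).trans (inv j).symm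
  have h' := mul_left_cancel₀ h7 h
  exact_mod_cast h'

end Pool.Agent.Lib.MP_c28bf6_an.N7
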