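import Mathlib
import Pool.Agent.Lib.MP_c28bf6_an.N7.Stm

/-!
# Spectral piece: a shift invariant space of functions with sum zero contains a character pair
-/

open Finset

namespace Pool.Agent.Lib.MP_c28bf6_an.N7

private theorem p_spec_pow (k j : ZMod 7) :
    (ZMod.stdAddChar k : ℂ) ^ j.val = ZMod.stdAddChar (j * k) := by
  rw [← AddChar.map_nsmul_eq_pow]
  congr 1
  rw [nsmul_eq_mul, ZMod.natCast_val, ZMod.cast_id', id]

private theorem p_spec_prim (k : ZMod 7) (hk : k ≠ 0) :
    IsPrimitiveRoot (ZMod.stdAddChar k : ℂ) 7 := by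
  have hp : Fact (Nat.Prime 7) := ⟨by norm_num⟩
  have h1 : (ZMod.stdAddChar k : ℂ) ^ 7 = 1 := by
    rw [← AddChar.map_nsmul_eq_pow]
    have : (7 : ℕ) • k = 0 := by
      rw [nsmul_eq_mul]
      have : ((7 : ℕ) : ZMod 7) = 0 := ZMod.natCast_self 7
      rw [this, zero_mul]
    rw [this, AddChar.map_zero_eq_one]
  have h2 : (ZMod.stdAddChar k : ℂ) ≠ 1 := by
    intro h
    apply hk
    apply ZMod.injective_stdAddChar
    rw [h, AddChar.map_zero_eq_one]
  exact IsPrimitiveRoot.iff_orderOf.mpr (orderOf_eq_prime h1 h2)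

theorem p_spec : S_spec := by
  intro W hsum hshift ⟨w, hw, hw0⟩
  -- a nonzero Fourier coefficient
  obtain ⟨k, hk⟩ : ∃ k : ZMod 7, ∑ j, (ZMod.stdAddChar (j * k) : ℂ) * (w j : ℂ) ≠ 0 := by
    by_contra hcon
    push Not at hcon
    apply hw0
    have h1 : ZMod.dft (fun j => (w j : ℂ)) = 0 := by
      funext k
      rw [ZMod.dft_apply]
      have := hcon (-k)
      simp only [smul_eq_mul, Pi.zero_apply]
      rw [← this]
      refine sum_congr rfl fun j _ => ?_
      rw [mul_neg]
    have h2 : (fun j => (w j : ℂ)) = 0 := by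
      apply ZMod.dft.injective
      rw [h1, map_zero]
    funext j
    have := congrFun h2 j
    simpa using this
  have hk0 : k ≠ 0 := by
    rintro rfl
    apply hk
    simp only [mul_zero, AddChar.map_zero_eq_one, one_mul]
    rw [← Complex.ofReal_sum, hsum w hw, Complex.ofReal_zero]
  set G : ℂ := ∑ j, (ZMod.stdAddChar (j * k) : ℂ) * (w j : ℂ) with hG
  set z : ℂ := ZMod.stdAddChar k with hz
  have hcc : ∀ j, cc z j = (ZMod.stdAddChar (j * k) : ℂ).re := by
    intro j
    rw [cc, hz, p_spec_pow]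
  have hss : ∀ j, ss z j = (ZMod.stdAddChar (j * k) : ℂ).im := by
    intro j
    rw [ss, hz, p_spec_pow]
  -- the two combinations
  have hmem : ∀ c : ZMod 7 → ℝ, (fun j => ∑ s, c s * w (j + s)) ∈ W := by
    intro c
    have : (fun j => ∑ s, c s * w (j + s)) = ∑ s, c s • (fun j => w (j + s)) := by
      funext j
      rw [Finset.sum_apply]
      rfl
    rw [this]
    exact W.sum_mem fun s _ => W.smul_mem _ (hshift w hw s)
  have hkey : ∀ j, ((∑ s, cc z s * w (j + s) : ℝ) : ℂ) + ((∑ s, ss z s * w (j + s) : ℝ) : ℂ) *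
      Complex.I = ((cc z j : ℂ) - (ss z j : ℂ) * Complex.I) * G := by
    intro j
    have h1 : ((∑ s, cc z s * w (j + s) : ℝ) : ℂ) + ((∑ s, ss z s * w (j + s) : ℝ) : ℂ) *
        Complex.I = ∑ s, (ZMod.stdAddChar (s * k) : ℂ) * (w (j + s) : ℂ) := by
      push_cast
      rw [sum_mul, ← sum_add_distrib]
      refine sum_congr rfl fun s _ => ?_
      rw [hcc, hss]
      conv_rhs => rw [← Complex.re_add_im (ZMod.stdAddChar (s * k) : ℂ)]
      ring
    have h2 : ((cc z j : ℂ) - (ss z j : ℂ) * Complex.I) = ZMod.stdAddChar (-(j * k)) := by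
      rw [AddChar.map_neg_eq_conj, hcc, hss]
      apply Complex.ext
      · simp
      · simp
    rw [h1, h2, hG, mul_sum]
    rw [← Equiv.sum_comp (Equiv.addLeft j) (fun s => ZMod.stdAddChar (-(j * k)) *
      ((ZMod.stdAddChar (s * k) : ℂ) * (w s : ℂ)))]
    refine sum_congr rfl fun s _ => ?_
    rw [Equiv.coe_addLeft, ← mul_assoc, ← AddChar.map_add_eq_mul]
    congr 2
    ring_nf
  have hre : ∀ j, ∑ s, cc z s * w (j + s) = cc z j * G.re + ss z j * G.im := by
    intro j
    have := congrArg Complex.re (hkey j)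
    simp only [Complex.add_re, Complex.mul_re, Complex.sub_re, Complex.sub_im, Complex.mul_im,
      Complex.ofReal_re, Complex.ofReal_im, Complex.I_re, Complex.I_im] at this
    linarith
  have him : ∀ j, ∑ s, ss z s * w (j + s) = cc z j * G.im - ss z j * G.re := by
    intro j
    have := congrArg Complex.im (hkey j)
    simp only [Complex.add_im, Complex.mul_re, Complex.sub_re, Complex.sub_im, Complex.mul_im,
      Complex.ofReal_re, Complex.ofReal_im, Complex.I_re, Complex.I_im] at this
    linarith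
  have hN : G.re ^ 2 + G.im ^ 2 ≠ 0 := by
    intro h
    apply hk
    apply Complex.ext
    · simp only [Complex.zero_re]
      nlinarith [sq_nonneg G.re, sq_nonneg G.im]
    · simp only [Complex.zero_im]
      nlinarith [sq_nonneg G.re, sq_nonneg G.im]
  refine ⟨z, p_spec_prim k hk0, ?_, ?_⟩
  · have : cc z = (G.re ^ 2 + G.im ^ 2)⁻¹ • (G.re • (fun j => ∑ s, cc z s * w (j + s)) +
        G.im • (fun j => ∑ s, ss z s * w (j + s))) := by
      funext j
      simp only [Pi.smul_apply, Pi.add_apply, smul_eq_mul, hre, him]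
      field_simp
      ring
    rw [this]
    exact W.smul_mem _ (W.add_mem (W.smul_mem _ (hmem _)) (W.smul_mem _ (hmem _)))
  · have : ss z = (G.re ^ 2 + G.im ^ 2)⁻¹ • (G.im • (fun j => ∑ s, cc z s * w (j + s)) -
        G.re • (fun j => ∑ s, ss z s * w (j + s))) := by
      funext j
      simp only [Pi.smul_apply, Pi.sub_apply, smul_eq_mul, hre, him]
      field_simp
      ring
    rw [this]
    exact W.smul_mem _ (W.sub_mem (W.smul_mem _ (hmem _)) (W.smul_mem _ (hmem _)))

end Pool.Agent.Lib.MP_c28bf6_an.N7
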