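import Pool.Agent.Lib.MP_c28bf6_an.N7.Stm

/-!
# Choreographies of seven bodies that are not coplanar: the static theorem
-/

open Finset

namespace Pool.Agent.Lib.MP_c28bf6_an.N7

variable {E : Type*} [NormedAddCommGroup E] [InnerProductSpace ℝ E]

lemma p_static_orth (x : ZMod 7 → E) (c : ZMod 7 → ℝ) (h0 : ∑ j, c j = 0)
    (h1 : ∑ j, c j • x j = 0) (f : ZMod 7 → ℝ) (hf : f ∈ aff x) : ∑ j, c j * f j = 0 := by
  obtain ⟨b, e, h⟩ := hf
  have h2 : ∀ j, c j * f j = c j * b + inner ℝ e (c j • x j) := by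
    intro j
    rw [h, inner_smul_right]
    ring
  rw [Finset.sum_congr rfl (fun j _ => h2 j), Finset.sum_add_distrib, ← Finset.sum_mul, h0,
    ← inner_sum, h1]
  simp

lemma p_static_force (x : ZMod 7 → E) (c : ZMod 7 → ℝ)
    (h1 : ∀ j, ∑ k, c k • force (x k - x j) = 0) (f : ZMod 7 → ℝ) (hf : f ∈ aff x)
    (j : ZMod 7) :
    ∑ k, c k * (if j = k then 0 else (‖x k - x j‖ ^ 3)⁻¹) * (f k - f j) = 0 := by
  obtain ⟨b, e, h⟩ := hf
  have h2 : ∀ k, c k * (if j = k then 0 else (‖x k - x j‖ ^ 3)⁻¹) * (f k - f j) =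
      inner ℝ e (c k • force (x k - x j)) := by
    intro k
    by_cases hk : j = k
    · subst hk
      simp
    · rw [if_neg hk, h, h, force, inner_smul_right, inner_smul_right, inner_sub_right]
      ring
  rw [Finset.sum_congr rfl (fun k _ => h2 k), ← inner_sum, h1 j, inner_zero_right]

theorem p_static.{u} (h_const : S_const) (h_equid : S_equid.{u}) (h_dim : S_dim.{u}) :
    S_static.{u} := by
  intro E _ _ x z hz hinj hc0 hs0 hc1 hs1 hcf hsf hdim
  obtain ⟨e, he⟩ := h_const z (fun j k => if j = k then 0 else (‖x k - x j‖ ^ 3)⁻¹) (aff x) hz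
    (by
      intro j k
      by_cases h : j = k
      · subst h; rfl
      · have h' : ¬ k = j := fun h2 => h h2.symm
        simp only [if_neg h, if_neg h']
        rw [norm_sub_rev])
    (by intro j; simp)
    (fun f hf => p_static_orth x _ hc0 hc1 f hf)
    (fun f hf => p_static_orth x _ hs0 hs1 f hf)
    (h_dim E x hdim)
    ⟨1, 0, fun j => by simp⟩
    (by
      intro j k hjk
      refine ⟨fun i => inner ℝ (x j - x k) (x i), ⟨0, x j - x k, fun i => by simp⟩, ?_⟩
      intro h
      have h1 : inner ℝ (x j - x k) (x j - x k) = (0 : ℝ) := by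
        rw [inner_sub_right]
        exact sub_eq_zero.2 h
      exact hjk (hinj (sub_eq_zero.1 (inner_self_eq_zero.1 h1))))
    (fun f hf j => p_static_force x _ hcf f hf j)
    (fun f hf j => p_static_force x _ hsf f hf j)
  refine h_equid E x (cc z) e hinj hc0 hc1 ⟨0, ?_⟩ ?_
  · simp [cc]
  · intro j k hjk
    have := he j k hjk
    rw [if_neg hjk] at this
    exact this

end Pool.Agent.Lib.MP_c28bf6_an.N7
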