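import Pool.Agent.Lib.MP_c28bf6_an.N7.Stm

open Finset

namespace Pool.Agent.Lib.MP_c28bf6_an.N7

theorem p_zero (h_isot : S_isot) (h_code : S_code) : S_zero := by
  intro c s b V hcs hc hs hV h1 hsep hb
  classical
  have i1 := h_isot b V hb
  have i2 := h_code c s V (fun j => b j ≠ 0) hcs hc hs
  have i3 : (univ.filter (fun j => b j ≠ 0)).card + (univ.filter (fun j => ¬ b j ≠ 0)).card = 7 := by
    rw [Finset.card_filter_add_card_filter_not]
    rfl
  have hsum : ∑ j, b j = 0 := by
    rw [← hb _ h1 _ h1]
    exact Finset.sum_congr rfl fun j _ => by ring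
  -- at most two elements
  have hle : (univ.filter (fun j => b j ≠ 0)).card ≤ 2 := by
    have i4 : (univ.filter (fun j => b j ≠ 0)).card = (univ.filter (fun j => b j ≠ 0)).card := rfl
    generalize (univ.filter (fun j => b j ≠ 0)).card = n at *
    generalize (univ.filter (fun j => ¬ b j ≠ 0)).card = m at *
    omega
  by_contra hne
  push Not at hne
  obtain ⟨j, hj⟩ := hne
  -- there is a second element
  have h2 : ∃ k, k ≠ j ∧ b k ≠ 0 := by
    by_contra hno
    push Not at hno
    have : ∑ i, b i = b j := Finset.sum_eq_single j (fun i _ hi => hno i hi)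
      (fun h => absurd (Finset.mem_univ j) h)
    exact hj (this.symm.trans hsum)
  obtain ⟨k, hkj, hk⟩ := h2
  have hjk : j ≠ k := hkj.symm
  have hset : univ.filter (fun j => b j ≠ 0) = {j, k} := by
    symm
    refine Finset.eq_of_subset_of_card_le ?_ ?_
    · intro i hi
      simp only [Finset.mem_insert, Finset.mem_singleton] at hi
      rcases hi with rfl | rfl
      · simp [hj]
      · simp [hk]
    · rw [Finset.card_pair hjk]
      exact hle
  have hout : ∀ i, i ≠ j → i ≠ k → b i = 0 := by
    intro i h3 h4
    by_contra h5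
    have : i ∈ univ.filter (fun j => b j ≠ 0) := by simp [h5]
    rw [hset] at this
    simp only [Finset.mem_insert, Finset.mem_singleton] at this
    tauto
  have pair : ∀ F : ZMod 7 → ℝ, (∀ i, b i = 0 → F i = 0) → ∑ i, F i = F j + F k := by
    intro F hF
    rw [← Finset.sum_pair hjk]
    symm
    refine Finset.sum_subset (Finset.subset_univ _) ?_
    intro i _ hi
    simp only [Finset.mem_insert, Finset.mem_singleton, not_or] at hi
    exact hF i (hout i hi.1 hi.2)
  obtain ⟨g, hg, hgg⟩ := hsep j k hjk
  have e1 : b j + b k = 0 := by rw [← pair b (fun i hi => hi), hsum]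
  have e2 : b j * g j + b k * g k = 0 := by
    rw [← pair (fun i => b i * g i) (fun i hi => by rw [hi, zero_mul])]
    rw [← hb _ h1 g hg]
    exact Finset.sum_congr rfl fun i _ => by ring
  have e3 : b j * (g j - g k) = 0 := by linear_combination e2 - g k * e1
  rcases mul_eq_zero.mp e3 with h | h
  · exact hj h
  · exact hgg (sub_eq_zero.mp h)

end Pool.Agent.Lib.MP_c28bf6_an.N7
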