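import Pool.Agent.Lib.MP_c28bf6_an.N7.Stm

open Finset

namespace Pool.Agent.Lib.MP_c28bf6_an.N7

theorem p_code : S_code := by
  intro c s V p _ hcs hc hs
  classical
  -- functions of `V` supported on two points vanish
  have two : ∀ j k : ZMod 7, j ≠ k → ∀ f ∈ V, (∀ i, i ≠ j → i ≠ k → f i = 0) → f = 0 := by
    intro j k hjk f hf hz
    have e1 : c j * f j + c k * f k = 0 := by
      rw [← hc f hf]
      rw [← Finset.sum_pair (f := fun i => c i * f i) hjk]
      refine Finset.sum_subset (Finset.subset_univ _) ?_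
      intro i _ hi
      simp only [Finset.mem_insert, Finset.mem_singleton, not_or] at hi
      rw [hz i hi.1 hi.2, mul_zero]
    have e2 : s j * f j + s k * f k = 0 := by
      rw [← hs f hf]
      rw [← Finset.sum_pair (f := fun i => s i * f i) hjk]
      refine Finset.sum_subset (Finset.subset_univ _) ?_
      intro i _ hi
      simp only [Finset.mem_insert, Finset.mem_singleton, not_or] at hi
      rw [hz i hi.1 hi.2, mul_zero]
    have hd := hcs j k hjk
    have e3 : (c j * s k - c k * s j) * f j = 0 := by linear_combination s k * e1 - c k * e2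
    have e4 : (c j * s k - c k * s j) * f k = 0 := by linear_combination c j * e2 - s j * e1
    have fj := (mul_eq_zero.mp e3).resolve_left hd
    have fk := (mul_eq_zero.mp e4).resolve_left hd
    ext i
    by_cases h1 : i = j
    · rw [h1, fj]; rfl
    · by_cases h2 : i = k
      · rw [h2, fk]; rfl
      · exact hz i h1 h2
  -- the dimension bound for two given points
  have bound : ∀ j k : ZMod 7, j ≠ k →
      Module.finrank ℝ (V ⊓ vanish p : Submodule ℝ (ZMod 7 → ℝ)) ≤
        (univ.filter (fun i => ¬ p i ∧ i ≠ j ∧ i ≠ k)).card := by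
    intro j k hjk
    let R : (V ⊓ vanish p : Submodule ℝ (ZMod 7 → ℝ)) →ₗ[ℝ] ({i // ¬ p i ∧ i ≠ j ∧ i ≠ k} → ℝ) :=
      { toFun := fun f i => (f : ZMod 7 → ℝ) i.1
        map_add' := fun f g => rfl
        map_smul' := fun r f => rfl }
    have hR : Function.Injective R := by
      rw [← LinearMap.ker_eq_bot, LinearMap.ker_eq_bot']
      intro f hf
      have hfV : (f : ZMod 7 → ℝ) ∈ V := f.2.1
      have hfv : ∀ i, p i → (f : ZMod 7 → ℝ) i = 0 := f.2.2
      have h0 : (f : ZMod 7 → ℝ) = 0 := by
        refine two j k hjk _ hfV ?_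
        intro i h1 h2
        by_cases hp : p i
        · exact hfv i hp
        · exact congrFun hf ⟨i, hp, h1, h2⟩
      exact Subtype.ext h0
    have h := LinearMap.finrank_le_finrank_of_injective hR
    rwa [Module.finrank_fintype_fun_eq_card, Fintype.card_subtype] at h
  have h01 : ∀ j : ZMod 7, j ≠ j + 1 := by decide
  by_cases hA : 2 ≤ (univ.filter (fun j => ¬ p j)).card
  · obtain ⟨j, hj, k, hk, hjk⟩ := Finset.one_lt_card.mp hA
    have hb := bound j k hjk
    have h1 : (univ.filter (fun i => ¬ p i ∧ i ≠ j ∧ i ≠ k)) =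
        ((univ.filter (fun i => ¬ p i)).erase j).erase k := by
      ext i
      simp only [Finset.mem_filter, Finset.mem_univ, true_and, Finset.mem_erase]
      tauto
    rw [h1, Finset.card_erase_of_mem (Finset.mem_erase.mpr ⟨hjk.symm, hk⟩),
      Finset.card_erase_of_mem hj] at hb
    omega
  · have hle : (univ.filter (fun j => ¬ p j)).card ≤ 1 := by omega
    rw [Finset.card_le_one] at hle
    have hex : ∃ j : ZMod 7, ∀ i, ¬ p i → i = j := by
      by_cases he : ∃ j, ¬ p j
      · obtain ⟨j, hj⟩ := he
        exact ⟨j, fun i hi => hle i (by simp [hi]) j (by simp [hj])⟩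
      · push Not at he
        exact ⟨0, fun i hi => absurd (he i) hi⟩
    obtain ⟨j, hj⟩ := hex
    have hb := bound j (j + 1) (h01 j)
    have h1 : (univ.filter (fun i => ¬ p i ∧ i ≠ j ∧ i ≠ j + 1)) = ∅ := by
      rw [Finset.filter_eq_empty_iff]
      rintro i _ ⟨h1, h2, _⟩
      exact h2 (hj i h1)
    rw [h1, Finset.card_empty] at hb
    omega

end Pool.Agent.Lib.MP_c28bf6_an.N7
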