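import Pool.Agent.Lib.MP_c28bf6_an.N7.Stm

open Finset

namespace Pool.Agent.Lib.MP_c28bf6_an.N7

theorem p_trig : S_trig := by
  intro z hz
  have hz7 : z ^ 7 = 1 := hz.pow_eq_one
  have hn : ‖z‖ = 1 := Complex.norm_eq_one_of_pow_eq_one hz7 (by norm_num)
  have hpn : ∀ j : ℕ, (z ^ j).re ^ 2 + (z ^ j).im ^ 2 = 1 := by
    intro j
    have h1 : Complex.normSq (z ^ j) = 1 := by
      rw [Complex.normSq_eq_norm_sq, norm_pow, hn]
      simp
    rw [Complex.normSq_apply] at h1
    linarith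
  have hp7 : ∀ j : ℕ, (z ^ j) ^ 7 = 1 := by
    intro j
    rw [← pow_mul, mul_comm, pow_mul, hz7, one_pow]
  refine ⟨fun j => hpn j.val, fun j k hjk h0 => ?_⟩
  unfold cc ss at h0
  set a := z ^ j.val with ha
  set b := z ^ k.val with hb
  have ha1 := hpn j.val
  have hb1 := hpn k.val
  rw [← ha] at ha1
  rw [← hb] at hb1
  have hw : (a.re * b.re + a.im * b.im) ^ 2 = 1 := by
    have e : (a.re * b.re + a.im * b.im) ^ 2 + (a.re * b.im - b.re * a.im) ^ 2
        = (a.re ^ 2 + a.im ^ 2) * (b.re ^ 2 + b.im ^ 2) := by ring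
    rw [h0, ha1, hb1] at e
    linarith
  have hb2 : b = a * ((a.re * b.re + a.im * b.im : ℝ) : ℂ) := by
    apply Complex.ext
    · simp only [Complex.mul_re, Complex.ofReal_re, Complex.ofReal_im, mul_zero, sub_zero]
      linear_combination (-b.re) * ha1 - a.im * h0
    · simp only [Complex.mul_im, Complex.ofReal_re, Complex.ofReal_im, mul_zero, zero_add]
      linear_combination (-b.im) * ha1 + a.re * h0
  have hsq : b ^ 2 = a ^ 2 := by
    have h2 : (((a.re * b.re + a.im * b.im : ℝ) : ℂ)) ^ 2 = 1 := by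
      exact_mod_cast hw
    rw [hb2, mul_pow]
    rw [h2, mul_one]
  have hab : b = a := by
    have e1 : b = (b ^ 2) ^ 4 := by
      have := hp7 k.val
      rw [← hb] at this
      calc b = b ^ 7 * b := by rw [this, one_mul]
        _ = (b ^ 2) ^ 4 := by ring
    have e2 : a = (a ^ 2) ^ 4 := by
      have := hp7 j.val
      rw [← ha] at this
      calc a = a ^ 7 * a := by rw [this, one_mul]
        _ = (a ^ 2) ^ 4 := by ring
    rw [e1, hsq, ← e2]
  have h3 := hz.pow_inj (ZMod.val_lt k) (ZMod.val_lt j) hab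
  exact hjk (ZMod.val_injective 7 h3).symm

end Pool.Agent.Lib.MP_c28bf6_an.N7
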